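import Pool.Agent.H.MP_dfc2f8_pr.C

namespace Pool.Agent.Results.MP_dfc2f8_pr.No
open Filter

/-- D is a dominating set of G -/
def Dom {n : ℕ} (G : SimpleGraph (Fin n)) (D : Finset (Fin n)) : Prop := ∀ v ∉ D, ∃ u ∈ D, G.Adj v u

open Classical in
/-- probability of the event E in G(n,p) -/
noncomputable def Pr (p : ℝ) (n : ℕ) (E : SimpleGraph (Fin n) → Prop) : ℝ :=
  ∑ G : SimpleGraph (Fin n), if E G then
    p ^ G.edgeSet.ncard * (1 - p) ^ (n.choose 2 - G.edgeSet.ncard) else 0

/-- Dominator holds D, Staller holds T, Dominator is to move and can force her set to satisfy goal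
within k more rounds; she claims one free vertex, then Staller claims up to b free vertices -/
def Win {n : ℕ} (b : ℕ) (goal : Finset (Fin n) → Prop) : ℕ → Finset (Fin n) → Finset (Fin n) → Prop
  | 0, D, _ => goal D
  | k + 1, D, T => goal D ∨ ∃ v, v ∉ D ∪ T ∧ ∀ B : Finset (Fin n), B.card ≤ b →
      Disjoint B (insert v D ∪ T) → Win b goal k (insert v D) (T ∪ B)

/-- least number of rounds in which Dominator can force claiming a dominating set -/
noncomputable def gMB {n : ℕ} (G : SimpleGraph (Fin n)) (b : ℕ) : ℕ∞ :=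
  ⨅ (k : ℕ) (_ : Win b (fun D => ∃ A ⊆ D, Dom G A) k ∅ ∅), (k : ℕ∞)

/-- least s such that Dominator can force claiming a dominating set of size at most s -/
noncomputable def sMB {n : ℕ} (G : SimpleGraph (Fin n)) (b : ℕ) : ℕ∞ :=
  ⨅ (s : ℕ) (_ : ∃ k, Win b (fun D => ∃ A ⊆ D, A.card ≤ s ∧ Dom G A) k ∅ ∅), (s : ℕ∞)

open Pool.Agent.H.MP_dfc2f8_pr in
theorem result :
    ¬ Tendsto (fun n => Pr (15 / 16) n (fun G => gMB G 1 = sMB G 1)) atTop (nhds 1) := by
  refine main (fun n G => gMB G 1 = sMB G 1) (fun n t ht hn G hG e => ?_)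
  have k : ∀ (g : Finset (Fin n) → Prop) k D T, Win 1 g k D T ↔ GW 1 g k D T := by
    intro g k
    induction k with
    | zero => exact fun _ _ => Iff.rfl
    | succ k ih => intro D T; simp only [Win, GW, ih]
  refine inf_gt (fun j hj c => gw3 (by simpa) ht hG hj ((k _ _ _ _).1 c)) (e.le.trans ?_)
  exact iInf₂_le t (hG.1.imp (fun j c => (k _ _ _ _).2 c))

end Pool.Agent.Results.MP_dfc2f8_pr.No
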